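import Mathlib

/-!
# MP_288739_co, Q1: connected (P5, C4)-free graphs have a vertex on all longest paths

Let `M` be the set of vertices with inclusion-maximal closed neighbourhood and `D` the set of
vertices that are not adjacent to all of `M`. Unless the graph is a blown up 5-cycle (which has a
Hamiltonian path), `M` is a clique, every component of `G[D]` is complete or anticomplete to every
vertex outside `D`, and every vertex of `M` that is adjacent to the end of a longest possible path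
inside `D` lies on all longest paths of `G`.
-/

set_option autoImplicit false

namespace Pool.Agent.Results.MP_288739_co.GallaiVertex

section
variable {V : Type} {G : SimpleGraph V}

/-- no induced `C₄`, in terms of vertices -/
def NoC4 (G : SimpleGraph V) : Prop := ∀ a b c d : V, a ≠ c → b ≠ d → G.Adj a b → G.Adj b c →
  G.Adj c d → G.Adj d a → G.Adj a c ∨ G.Adj b d

/-- no induced `P₅`, in terms of vertices -/
def NoP5 (G : SimpleGraph V) : Prop := ∀ a b c d e : V, G.Adj a b → G.Adj b c → G.Adj c d →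
  G.Adj d e → ¬ G.Adj a c → ¬ G.Adj a d → ¬ G.Adj a e → ¬ G.Adj b d → ¬ G.Adj b e →
  ¬ G.Adj c e → False

def mkEmb {n : ℕ} (H : SimpleGraph (Fin n)) (f : Fin n → V) (M : Fin n → Fin n → Bool)
    (hM : ∀ i j, H.Adj i j ↔ M i j = true) (hf : ∀ i j, i ≠ j → f i ≠ f j)
    (hG : ∀ i j, G.Adj (f i) (f j) ↔ M i j = true) : H ↪g G :=
  ⟨⟨f, fun i j h => by
    by_contra hne
    exact hf i j hne h⟩, by
    intro i j
    rw [hM]
    exact hG i j⟩

lemma noC4_of (h : ¬ Nonempty (SimpleGraph.cycleGraph 4 ↪g G)) : NoC4 G := by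
  intro a b c d hac hbd hab hbc hcd hda
  by_contra hcon
  push Not at hcon
  obtain ⟨h1, h2⟩ := hcon
  apply h
  clear h
  have e1 := hab.ne
  have e2 := hbc.ne
  have e3 := hcd.ne
  have e4 := hda.ne
  have h1' : ¬ G.Adj c a := fun h => h1 h.symm
  have h2' : ¬ G.Adj d b := fun h => h2 h.symm
  refine ⟨mkEmb _ ![a, b, c, d] ![![false, true, false, true], ![true, false, true, false],
    ![false, true, false, true], ![true, false, true, false]] (by decide) ?_ ?_⟩
  · intro i j hij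
    fin_cases i <;> fin_cases j <;>
      simp [hac, hbd, hac.symm, hbd.symm, e1, e2, e3, e4, e1.symm, e2.symm, e3.symm, e4.symm] at hij ⊢
  · intro i j
    fin_cases i <;> fin_cases j <;>
      simp [hab, hbc, hcd, hda, hab.symm, hbc.symm, hcd.symm, hda.symm, h1, h2, h1', h2']

lemma noP5_of (h : ¬ Nonempty (SimpleGraph.pathGraph 5 ↪g G)) : NoP5 G := by
  intro a b c d e hab hbc hcd hde hac had hae hbd hbe hce
  apply h
  clear h
  have e1 := hab.ne
  have e2 := hbc.ne
  have e3 := hcd.ne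
  have e4 := hde.ne
  have n1 : a ≠ c := by
    rintro rfl
    exact had hcd
  have n2 : a ≠ d := by
    rintro rfl
    exact hac hcd.symm
  have n3 : a ≠ e := by
    rintro rfl
    exact had hde.symm
  have n4 : b ≠ d := by
    rintro rfl
    exact had hab
  have n5 : b ≠ e := by
    rintro rfl
    exact hae hab
  have n6 : c ≠ e := by
    rintro rfl
    exact hbe hbc
  have f1 : ¬ G.Adj c a := fun h => hac h.symm
  have f2 : ¬ G.Adj d a := fun h => had h.symm
  have f3 : ¬ G.Adj e a := fun h => hae h.symm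
  have f4 : ¬ G.Adj d b := fun h => hbd h.symm
  have f5 : ¬ G.Adj e b := fun h => hbe h.symm
  have f6 : ¬ G.Adj e c := fun h => hce h.symm
  refine ⟨mkEmb _ ![a, b, c, d, e] ![![false, true, false, false, false],
    ![true, false, true, false, false], ![false, true, false, true, false],
    ![false, false, true, false, true], ![false, false, false, true, false]] (by
      intro i j
      rw [SimpleGraph.pathGraph_adj]
      revert i j
      decide) ?_ ?_⟩
  · intro i j hij
    fin_cases i <;> fin_cases j <;>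
      simp [e1, e2, e3, e4, n1, n2, n3, n4, n5, n6, e1.symm, e2.symm, e3.symm, e4.symm, n1.symm,
        n2.symm, n3.symm, n4.symm, n5.symm, n6.symm] at hij ⊢
  · intro i j
    fin_cases i <;> fin_cases j <;>
      simp [hab, hbc, hcd, hde, hab.symm, hbc.symm, hcd.symm, hde.symm, hac, had, hae, hbd, hbe,
        hce, f1, f2, f3, f4, f5, f6]

/-! ### paths as lists -/

/-- `l` is (the list of vertices of) a path -/
def IsP (G : SimpleGraph V) (l : List V) : Prop := l ≠ [] ∧ l.IsChain G.Adj ∧ l.Nodup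

/-- `l` is a longest path -/
def Longest (G : SimpleGraph V) (l : List V) : Prop := IsP G l ∧ ∀ l', IsP G l' → l'.length ≤ l.length

lemma ends_head {l : List V} {v a : V} (hl : Longest G (a :: l)) (hv : v ∉ a :: l) :
    ¬ G.Adj v a := by
  intro h
  have := hl.2 (v :: a :: l) ⟨by simp, List.isChain_cons_cons.2 ⟨h, hl.1.2.1⟩,
    List.nodup_cons.2 ⟨hv, hl.1.2.2⟩⟩
  simp at this

lemma ends_last {l : List V} {v a : V} (hl : Longest G (l ++ [a])) (hv : v ∉ l ++ [a]) :
    ¬ G.Adj v a := by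
  intro h
  have := hl.2 (l ++ [a] ++ [v]) ⟨by simp, by
    rw [List.append_assoc]
    show List.IsChain G.Adj (l ++ a :: [v])
    rw [List.isChain_split]
    refine ⟨hl.1.2.1, ?_⟩
    simp [h.symm], by
    rw [List.nodup_append]
    refine ⟨hl.1.2.2, by simp, ?_⟩
    intro x hx y hy hxy
    simp only [List.mem_singleton] at hy
    subst hxy
    subst hy
    exact hv hx⟩
  simp at this

/-- no two consecutive vertices of a longest path are adjacent to a vertex outside -/
lemma insertion {l1 l2 : List V} {v a b : V} (hl : Longest G (l1 ++ a :: b :: l2))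
    (hv : v ∉ l1 ++ a :: b :: l2) (ha : G.Adj v a) (hb : G.Adj v b) : False := by
  have hc := hl.1.2.1
  rw [List.isChain_append_cons_cons] at hc
  have hn := hl.1.2.2
  have := hl.2 (l1 ++ a :: v :: b :: l2) ⟨by simp, by
    rw [List.isChain_append_cons_cons]
    refine ⟨hc.1, ha.symm, ?_⟩
    rw [List.isChain_cons_cons]
    exact ⟨hb, hc.2.2⟩, by
    have hp : (l1 ++ a :: v :: b :: l2).Perm (v :: (l1 ++ a :: b :: l2)) := by
      have h1 : l1 ++ a :: v :: b :: l2 = (l1 ++ [a]) ++ v :: (b :: l2) := by simp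
      have h2 : v :: (l1 ++ a :: b :: l2) = v :: ((l1 ++ [a]) ++ (b :: l2)) := by simp
      rw [h1, h2]
      exact List.perm_middle
    rw [hp.nodup_iff]
    exact List.nodup_cons.2 ⟨hv, hn⟩⟩
  simp at this

/-! ### maximal closed neighbourhoods -/

/-- `N[v] ⊆ N[w]` -/
def Le (G : SimpleGraph V) (v w : V) : Prop := ∀ x, (x = v ∨ G.Adj v x) → (x = w ∨ G.Adj w x)

/-- `N[v]` is maximal -/
def Mx (G : SimpleGraph V) (v : V) : Prop := ∀ w, Le G v w → Le G w v

lemma exists_Mx [Finite V] (x : V) : ∃ m, Mx G m ∧ Le G x m := by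
  classical
  have := Fintype.ofFinite V
  let N : V → Finset V := fun v => Finset.univ.filter fun y => y = v ∨ G.Adj v y
  have hN : ∀ v w, Le G v w ↔ N v ⊆ N w := by
    intro v w
    constructor
    · intro h y hy
      simp only [N, Finset.mem_filter, Finset.mem_univ, true_and] at hy ⊢
      exact h y hy
    · intro h y hy
      have := h (Finset.mem_filter.2 ⟨Finset.mem_univ y, hy⟩)
      simpa [N] using this
  obtain ⟨m, hm, hmax⟩ := Finset.exists_max_image (Finset.univ.filter fun w => Le G x w)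
    (fun w => (N w).card) ⟨x, Finset.mem_filter.2 ⟨Finset.mem_univ _, fun y hy => hy⟩⟩
  rw [Finset.mem_filter] at hm
  refine ⟨m, ?_, hm.2⟩
  intro w hmw
  have hxw : Le G x w := fun y hy => hmw y (hm.2 y hy)
  have h1 := hmax w (Finset.mem_filter.2 ⟨Finset.mem_univ _, hxw⟩)
  rw [hN] at hmw ⊢
  rw [Finset.eq_of_subset_of_card_le hmw h1]

/-- the consequence of `P₅`-freeness that fails only for blown up 5-cycles -/
def PS (G : SimpleGraph V) : Prop := ∀ v x y y', Mx G v → G.Adj v x → ¬ G.Adj v y → y ≠ v →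
  ¬ G.Adj v y' → y' ≠ v → G.Adj y y' → G.Adj x y' → G.Adj x y

section main
variable (h4 : NoC4 G) (hS : PS G) (hG : G.Connected)
include h4 hS hG

omit h4 hS in
/-- an edge leaving a set -/
lemma exists_edge {S : V → Prop} {a b : V} (ha : S a) (hb : ¬ S b) :
    ∃ c d, S c ∧ ¬ S d ∧ G.Adj c d := by
  obtain ⟨w⟩ := hG.preconnected a b
  induction w with
  | nil => exact absurd ha hb
  | @cons u v w huv _ ih =>
    by_cases hv : S v
    · exact ih hv hb
    · exact ⟨u, v, ha, hv, huv⟩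

lemma Mx_adj {v w : V} (hv : Mx G v) (hw : Mx G w) (hvw : v ≠ w) : G.Adj v w := by
  by_contra hn
  -- the component of `w` in `G - N[v]`
  let C : V → Prop := fun c =>
    Relation.ReflTransGen (fun a b => G.Adj a b ∧ (a ≠ v ∧ ¬ G.Adj v a) ∧ (b ≠ v ∧ ¬ G.Adj v b)) w c
  have hCw : C w := Relation.ReflTransGen.refl
  have hC : ∀ c, C c → c ≠ v ∧ ¬ G.Adj v c := by
    intro c hc
    rcases Relation.ReflTransGen.cases_tail hc with h | ⟨b, _, hb⟩
    · rw [h]
      exact ⟨hvw.symm, hn⟩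
    · exact hb.2.2
  obtain ⟨c, x, hc, hx, hcx⟩ := exists_edge hG (S := C) (a := w) (b := v) hCw
    (fun h => (hC v h).1 rfl)
  have hxv : x ≠ v := by
    rintro rfl
    exact (hC c hc).2 hcx.symm
  have hvx : G.Adj v x := by
    by_contra hcon
    exact hx (Relation.ReflTransGen.tail hc ⟨hcx, hC c hc, hxv, hcon⟩)
  -- `x` is complete to `C`
  have hxw : G.Adj x w := by
    have key : ∀ c, C c → G.Adj x c → G.Adj x w := by
      intro c hc
      induction hc with
      | refl => exact fun h => h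
      | @tail b c _ hbc ih =>
        intro h
        exact ih (hS v x b c hv hvx hbc.2.1.2 hbc.2.1.1 hbc.2.2.2 hbc.2.2.1 hbc.1 h)
    exact key c hc hcx.symm
  have hxC : ∀ c, C c → G.Adj x c := by
    intro c hc
    induction hc with
    | refl => exact hxw
    | @tail b c _ hbc ih =>
      exact hS v x c b hv hvx hbc.2.2.2 hbc.2.2.1 hbc.2.1.2 hbc.2.1.1 hbc.1.symm ih
  have hle : Le G w x := by
    rintro z (rfl | hz)
    · exact Or.inr hxw
    · by_cases hzv : z = v
      · subst hzv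
        exact absurd hz.symm hn
      by_cases h1 : G.Adj v z
      · by_cases hzx : z = x
        · exact Or.inl hzx
        · right
          rcases h4 v x w z hvw (fun h => hzx h.symm) hvx hxw hz h1.symm with h2 | h2
          · exact absurd h2 hn
          · exact h2
      · right
        exact hxC z (Relation.ReflTransGen.single ⟨hz, ⟨hvw.symm, hn⟩, hzv, h1⟩)
  have h2 := hw x hle v (Or.inr hvx.symm)
  rcases h2 with h2 | h2
  · exact hvw h2
  · exact hn h2.symm

/-- the vertices not adjacent to all maximal vertices -/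
def DD (G : SimpleGraph V) (y : V) : Prop := ∃ v, Mx G v ∧ y ≠ v ∧ ¬ G.Adj v y

omit hS hG h4 in
lemma not_DD {x : V} (hx : ¬ DD G x) {v : V} (hv : Mx G v) : x = v ∨ G.Adj v x := by
  by_contra hcon
  push Not at hcon
  exact hx ⟨v, hv, hcon⟩

lemma Mx_not_DD {v : V} (hv : Mx G v) : ¬ DD G v := by
  rintro ⟨w, hw, hvw, hn⟩
  exact hn (Mx_adj h4 hS hG hw hv hvw.symm)

/-- adjacency to `v ∈ M` is constant on the components of `G[D]` -/
lemma E1 {v y y2 : V} (hv : Mx G v) (hy : y ≠ v) (hvy : ¬ G.Adj v y) (h2 : DD G y2)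
    (hyy : G.Adj y y2) : y2 ≠ v ∧ ¬ G.Adj v y2 := by
  have hne : y2 ≠ v := by
    rintro rfl
    exact Mx_not_DD h4 hS hG hv h2
  refine ⟨hne, fun hvy2 => ?_⟩
  obtain ⟨w, hw, hw1, hw2⟩ := h2
  have hwv : w ≠ v := by
    rintro rfl
    exact hw2 hvy2
  have awv : G.Adj w v := Mx_adj h4 hS hG hw hv hwv
  by_cases h5 : G.Adj w y
  · rcases h4 w v y2 y (fun h => hw1 h.symm) hy.symm awv hvy2 hyy.symm h5.symm with h6 | h6
    · exact hw2 h6
    · exact hvy h6
  · have hyw : y ≠ w := by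
      rintro rfl
      exact hvy awv.symm
    exact hvy (hS w v y y2 hw awv h5 hyw hw2 hw1 hyy hvy2)

/-- vertices outside `D` are complete or anticomplete to the components of `G[D]` -/
lemma E2 {x y y2 : V} (hx : ¬ DD G x) (hy : DD G y) (hy2 : DD G y2) (hyy : G.Adj y y2)
    (hxy : G.Adj x y) : G.Adj x y2 := by
  obtain ⟨v, hv, h1, h2⟩ := hy
  obtain ⟨h3, h5⟩ := E1 h4 hS hG hv h1 h2 hy2 hyy
  rcases not_DD hx hv with h6 | h6
  · subst h6
    exact absurd hxy h2
  · exact hS v x y2 y hv h6 h5 h3 h2 h1 hyy.symm hxy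

/-- path inside `D` with first vertex adjacent to `v` -/
def DP (G : SimpleGraph V) (v : V) (Z : List V) : Prop :=
  ∃ z Z', Z = z :: Z' ∧ Z.IsChain G.Adj ∧ Z.Nodup ∧ (∀ a ∈ Z, DD G a) ∧ G.Adj v z

lemma DP_adj {v : V} (hv : ¬ DD G v) : ∀ (Z' : List V) (z : V), (z :: Z').IsChain G.Adj →
    (∀ a ∈ z :: Z', DD G a) → G.Adj v z → ∀ a ∈ z :: Z', G.Adj v a := by
  intro Z'
  induction Z' with
  | nil =>
    intro z _ _ hz a ha
    simp only [List.mem_singleton] at ha
    rw [ha]
    exact hz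
  | cons b Z' ih =>
    intro z hc hD hz a ha
    rw [List.isChain_cons_cons] at hc
    rcases List.mem_cons.1 ha with rfl | ha
    · exact hz
    · refine ih b hc.2 (fun a ha => hD a (List.mem_cons_of_mem _ ha)) ?_ a ha
      exact E2 h4 hS hG hv (hD z (by simp)) (hD b (by simp)) hc.1 hz

omit h4 hS hG in
lemma split_first {p : V → Prop} : ∀ l : List V, (∃ x ∈ l, p x) →
    ∃ W u R, l = W ++ u :: R ∧ (∀ w ∈ W, ¬ p w) ∧ p u := by
  classical
  intro l
  induction l with
  | nil => simp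
  | cons a l ih =>
    intro h
    by_cases ha : p a
    · exact ⟨[], a, l, rfl, by simp, ha⟩
    · obtain ⟨W, u, R, hl, hW, hu⟩ := ih (by
        obtain ⟨x, hx, hpx⟩ := h
        rcases List.mem_cons.1 hx with rfl | hx
        · exact absurd hpx ha
        · exact ⟨x, hx, hpx⟩)
      refine ⟨a :: W, u, R, by simp [hl], ?_, hu⟩
      intro w hw
      rcases List.mem_cons.1 hw with rfl | hw
      · exact ha
      · exact hW w hw

/-- the main step -/
lemma main_step [Finite V] {l : List V} (hl : Longest G l) {v : V} (hv : Mx G v) (hvl : v ∉ l) :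
    ∃ m W, Mx G m ∧ DP G m W ∧ ∀ Z, DP G v Z → Z.length < W.length := by
  classical
  have hnv : ¬ DD G v := Mx_not_DD h4 hS hG hv
  -- elements of `l` in `D` are not adjacent to `v`
  have hD : ∀ p ∈ l, DD G p → ¬ G.Adj v p := by
    intro p hp hpD hvp
    obtain ⟨l1, l2, rfl⟩ := List.append_of_mem hp
    rcases List.eq_nil_or_concat l1 with rfl | ⟨l1', q, rfl⟩
    · exact ends_head hl hvl hvp
    · rw [List.concat_append] at hl hvl
      have hqp : G.Adj q p := by
        have := hl.1.2.1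
        rw [List.isChain_append_cons_cons] at this
        exact this.2.1
      have hvq : G.Adj v q := by
        by_cases hq : DD G q
        · exact E2 h4 hS hG hnv hpD hq hqp.symm hvp
        · rcases not_DD hq hv with h1 | h1
          · subst h1
            exact absurd (by simp) hvl
          · exact h1
      exact insertion hl hvl hvq hvp
  -- `l` contains a vertex outside `D`
  have hex : ∃ x ∈ l, ¬ DD G x := by
    by_contra hcon
    push Not at hcon
    obtain ⟨a, l', rfl⟩ := List.exists_cons_of_ne_nil hl.1.1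
    -- the component of `a` in `G[D]`
    let C : V → Prop := fun c =>
      Relation.ReflTransGen (fun b c => G.Adj b c ∧ DD G b ∧ DD G c) a c
    have hCa : C a := Relation.ReflTransGen.refl
    have haD : DD G a := hcon a (by simp)
    have hCD : ∀ c, C c → DD G c := by
      intro c hc
      rcases Relation.ReflTransGen.cases_tail hc with h | ⟨b, _, hb⟩
      · rw [h]
        exact haD
      · exact hb.2.2
    obtain ⟨c, x, hc, hx, hcx⟩ := exists_edge hG (S := C) (a := a) (b := v) hCa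
      (fun h => hnv (hCD v h))
    have hxD : ¬ DD G x := fun h => hx (Relation.ReflTransGen.tail hc ⟨hcx, hCD c hc, h⟩)
    have key : ∀ c, C c → G.Adj x c → G.Adj x a := by
      intro c hc
      induction hc with
      | refl => exact fun h => h
      | @tail b c _ hbc ih =>
        intro h
        exact ih (E2 h4 hS hG hxD hbc.2.2 hbc.2.1 hbc.1.symm h)
    exact ends_head hl (fun h => hxD (hcon x h)) (key c hc hcx.symm)
  obtain ⟨W, u, R, rfl, hW, hu⟩ := split_first (p := fun x => ¬ DD G x) l hex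
  have hW' : ∀ w ∈ W, DD G w := fun w hw => not_not.1 (hW w hw)
  have hvu : G.Adj v u := by
    rcases not_DD hu hv with h1 | h1
    · subst h1
      exact absurd (by simp) hvl
    · exact h1
  rcases List.eq_nil_or_concat W with rfl | ⟨W', y, rfl⟩
  · exact absurd hvu (ends_head hl hvl)
  have hyD : DD G y := hW' y (by simp)
  have huy : G.Adj y u := by
    have := hl.1.2.1
    rw [List.concat_append, List.isChain_append_cons_cons] at this
    exact this.2.1
  obtain ⟨m, hm, hum⟩ := exists_Mx (G := G) u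
  have hmy : G.Adj m y := by
    rcases hum y (Or.inr huy.symm) with h1 | h1
    · subst h1
      exact absurd hyD (Mx_not_DD h4 hS hG hm)
    · exact h1
  have hWc : (W'.concat y).IsChain G.Adj := hl.1.2.1.left_of_append
  have hWn : (W'.concat y).Nodup := (List.nodup_append.1 hl.1.2.2).1
  refine ⟨m, (W'.concat y).reverse, hm, ⟨y, W'.reverse, by simp, ?_, ?_, ?_, hmy⟩, ?_⟩
  · rw [List.isChain_reverse]
    exact hWc.imp fun a b h => h.symm
  · exact List.nodup_reverse.2 hWn
  · intro a ha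
    rw [List.mem_reverse] at ha
    exact hW' a ha
  · rintro Z ⟨z, Z', rfl, hZc, hZn, hZD, hvz⟩
    have hZadj := DP_adj h4 hS hG hnv Z' z hZc hZD hvz
    have hP : IsP G ((z :: Z').reverse ++ v :: u :: R) := by
      refine ⟨by simp, ?_, ?_⟩
      · rw [List.isChain_append]
        refine ⟨?_, ?_, ?_⟩
        · rw [List.isChain_reverse]
          exact hZc.imp fun a b h => h.symm
        · rw [List.isChain_cons_cons]
          exact ⟨hvu, hl.1.2.1.right_of_append⟩
        · intro a ha b hb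
          simp only [List.getLast?_reverse, List.head?_cons, Option.mem_def,
            Option.some.injEq] at ha hb
          subst ha
          subst hb
          exact hvz.symm
      · rw [List.nodup_append]
        refine ⟨List.nodup_reverse.2 hZn, ?_, ?_⟩
        · rw [List.nodup_cons]
          refine ⟨fun h => hvl (List.mem_append_right _ h), (List.nodup_append.1 hl.1.2.2).2.1⟩
        · intro a ha b hb hab
          subst hab
          rw [List.mem_reverse] at ha
          rcases List.mem_cons.1 hb with rfl | hb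
          · exact hnv (hZD a ha)
          · exact hD a (List.mem_append_right _ hb) (hZD a ha) (hZadj a ha)
    have := hl.2 _ hP
    simp only [List.length_append, List.length_reverse, List.length_cons,
      List.length_concat] at this ⊢
    omega

/-- the Gallai vertex if `PS` holds -/
lemma gallai_of_PS [Finite V] : ∃ v, ∀ l, Longest G l → v ∈ l := by
  classical
  have := Fintype.ofFinite V
  obtain ⟨v0⟩ := hG.nonempty
  obtain ⟨m0, hm0, _⟩ := exists_Mx (G := G) v0
  by_cases hex : ∃ n, ∃ v Z, Mx G v ∧ DP G v Z ∧ Z.length = n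
  · have hb : ∀ n, (∃ v Z, Mx G v ∧ DP G v Z ∧ Z.length = n) → n ≤ Fintype.card V := by
      rintro n ⟨v, Z, _, ⟨z, Z', _, _, hn, _, _⟩, rfl⟩
      exact hn.length_le_card
    obtain ⟨v, Z, hv, hZ, hlen⟩ := Nat.findGreatest_spec (P := fun n => ∃ v Z, Mx G v ∧ DP G v Z ∧
      Z.length = n) (hb _ hex.choose_spec) hex.choose_spec
    refine ⟨v, fun l hl => ?_⟩
    by_contra hvl
    obtain ⟨m, W, hm, hW, hlt⟩ := main_step h4 hS hG hl hv hvl
    have h1 := hlt Z hZ
    have h2 := Nat.le_findGreatest (P := fun n => ∃ v Z, Mx G v ∧ DP G v Z ∧ Z.length = n)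
      (hb _ ⟨m, W, hm, hW, rfl⟩) ⟨m, W, hm, hW, rfl⟩
    omega
  · refine ⟨m0, fun l hl => ?_⟩
    by_contra hvl
    obtain ⟨m, W, hm, hW, _⟩ := main_step h4 hS hG hl hm0 hvl
    exact hex ⟨W.length, m, W, hm, hW, rfl⟩

end main

/-! ### blown up 5-cycles -/

lemma cls5 (A B C D E : Prop) (q1 : A → C → B) (q2 : B → D → C) (q3 : C → E → D) (q4 : D → A → E)
    (q5 : E → B → A) (r1 : A → B ∨ C ∨ D) (r2 : B → C ∨ D ∨ E) (r3 : C → D ∨ E ∨ A)
    (r4 : D → E ∨ A ∨ B) (r5 : E → A ∨ B ∨ C) :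
    (¬ A ∧ ¬ B ∧ ¬ C ∧ ¬ D ∧ ¬ E) ∨
     (A ∧ B ∧ C ∧ D ∧ E) ∨ (B ∧ E ∧ ¬ C ∧ ¬ D ∧ A) ∨ (C ∧ A ∧ ¬ D ∧ ¬ E ∧ B) ∨
     (D ∧ B ∧ ¬ E ∧ ¬ A ∧ C) ∨ (E ∧ C ∧ ¬ A ∧ ¬ B ∧ D) ∨ (A ∧ D ∧ ¬ B ∧ ¬ C ∧ E) := by
  by_cases a : A <;> by_cases b : B <;> by_cases c : C <;> by_cases d : D <;> by_cases e : E <;>
    simp only [a, b, c, d, e, true_implies, imp_false, not_true_eq_false, not_false_eq_true,
      and_true, and_false, or_true, or_false] at *

/-- `a b c d e` is an induced 5-cycle -/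
structure C5 (G : SimpleGraph V) (a b c d e : V) : Prop where
  ab : G.Adj a b
  bc : G.Adj b c
  cd : G.Adj c d
  de : G.Adj d e
  ea : G.Adj e a
  ac : ¬ G.Adj a c
  ad : ¬ G.Adj a d
  bd : ¬ G.Adj b d
  be : ¬ G.Adj b e
  ce : ¬ G.Adj c e

lemma C5.rot {a b c d e : V} (h : C5 G a b c d e) : C5 G b c d e a :=
  ⟨h.bc, h.cd, h.de, h.ea, h.ab, h.bd, h.be, h.ce, fun h' => h.ac h'.symm, fun h' => h.ad h'.symm⟩

/-- `x` is a clone of the first vertex -/
def TA (G : SimpleGraph V) (a b c d e x : V) : Prop :=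
  G.Adj x b ∧ G.Adj x e ∧ ¬ G.Adj x c ∧ ¬ G.Adj x d ∧ (x = a ∨ G.Adj x a)

/-- `x` is adjacent to all five vertices -/
def TU (G : SimpleGraph V) (a b c d e x : V) : Prop :=
  G.Adj x a ∧ G.Adj x b ∧ G.Adj x c ∧ G.Adj x d ∧ G.Adj x e

/-- `x` is adjacent to none of the five vertices -/
def TN (G : SimpleGraph V) (a b c d e x : V) : Prop :=
  ¬ G.Adj x a ∧ ¬ G.Adj x b ∧ ¬ G.Adj x c ∧ ¬ G.Adj x d ∧ ¬ G.Adj x e

lemma classify (h4 : NoC4 G) (h5 : NoP5 G) {a b c d e : V} (h : C5 G a b c d e) (x : V) :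
    TN G a b c d e x ∨ TU G a b c d e x ∨ TA G a b c d e x ∨ TA G b c d e a x ∨
      TA G c d e a b x ∨ TA G d e a b c x ∨ TA G e a b c d x := by
  obtain ⟨ab, bc, cd, de, ea, ac, ad, bd, be, ce⟩ := h
  by_cases xa : x = a
  · subst xa
    right; right; left
    exact ⟨ab, ea.symm, ac, ad, Or.inl rfl⟩
  by_cases xb : x = b
  · subst xb
    right; right; right; left
    exact ⟨bc, ab.symm, bd, be, Or.inl rfl⟩
  by_cases xc : x = c
  · subst xc
    right; right; right; right; left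
    exact ⟨cd, bc.symm, ce, fun h => ac h.symm, Or.inl rfl⟩
  by_cases xd : x = d
  · subst xd
    right; right; right; right; right; left
    exact ⟨de, cd.symm, fun h => ad h.symm, fun h => bd h.symm, Or.inl rfl⟩
  by_cases xe : x = e
  · subst xe
    right; right; right; right; right; right
    exact ⟨ea, de.symm, fun h => be h.symm, fun h => ce h.symm, Or.inl rfl⟩
  have nac : a ≠ c := fun h => ad (h ▸ cd)
  have nbd : b ≠ d := fun h => be (h ▸ de)
  have nce : c ≠ e := fun h => ac ((h ▸ ea).symm)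
  have nad : a ≠ d := fun h => ac (h ▸ cd.symm)
  have nbe : b ≠ e := fun h => bd (h ▸ de.symm)
  have q1 : G.Adj x a → G.Adj x c → G.Adj x b := fun h1 h2 =>
    (h4 x a b c xb nac h1 ab bc h2.symm).resolve_right ac
  have q2 : G.Adj x b → G.Adj x d → G.Adj x c := fun h1 h2 =>
    (h4 x b c d xc nbd h1 bc cd h2.symm).resolve_right bd
  have q3 : G.Adj x c → G.Adj x e → G.Adj x d := fun h1 h2 =>
    (h4 x c d e xd nce h1 cd de h2.symm).resolve_right ce
  have q4 : G.Adj x d → G.Adj x a → G.Adj x e := fun h1 h2 =>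
    (h4 x d e a xe nad.symm h1 de ea h2.symm).resolve_right (fun h => ad h.symm)
  have q5 : G.Adj x e → G.Adj x b → G.Adj x a := fun h1 h2 =>
    (h4 x e a b xa nbe.symm h1 ea ab h2.symm).resolve_right (fun h => be h.symm)
  have ca : ¬ G.Adj c a := fun h => ac h.symm
  have da : ¬ G.Adj d a := fun h => ad h.symm
  have db : ¬ G.Adj d b := fun h => bd h.symm
  have eb : ¬ G.Adj e b := fun h => be h.symm
  have ec : ¬ G.Adj e c := fun h => ce h.symm
  have key : ∀ p q r s : V, G.Adj p q → G.Adj q r → G.Adj r s → ¬ G.Adj p r → ¬ G.Adj p s →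
      ¬ G.Adj q s → G.Adj x p → G.Adj x q ∨ G.Adj x r ∨ G.Adj x s := by
    intro p q r s h1 h2 h3 n1 n2 n3 hx
    by_contra hcon
    push Not at hcon
    exact h5 x p q r s hx h1 h2 h3 hcon.1 hcon.2.1 hcon.2.2 n1 n2 n3
  have r1 := key a b c d ab bc cd ac ad bd
  have r2 := key b c d e bc cd de bd be ce
  have r3 := key c d e a cd de ea ce ca da
  have r4 := key d e a b de ea ab da db eb
  have r5 := key e a b c ea ab bc eb ec ac
  have h := cls5 _ _ _ _ _ q1 q2 q3 q4 q5 r1 r2 r3 r4 r5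
  rcases h with k | k | k | k | k | k | k
  · exact Or.inl k
  · exact Or.inr (Or.inl k)
  · exact Or.inr (Or.inr (Or.inl ⟨k.1, k.2.1, k.2.2.1, k.2.2.2.1, Or.inr k.2.2.2.2⟩))
  · exact Or.inr (Or.inr (Or.inr (Or.inl ⟨k.1, k.2.1, k.2.2.1, k.2.2.2.1, Or.inr k.2.2.2.2⟩)))
  · exact Or.inr (Or.inr (Or.inr (Or.inr
      (Or.inl ⟨k.1, k.2.1, k.2.2.1, k.2.2.2.1, Or.inr k.2.2.2.2⟩))))
  · exact Or.inr (Or.inr (Or.inr (Or.inr (Or.inr
      (Or.inl ⟨k.1, k.2.1, k.2.2.1, k.2.2.2.1, Or.inr k.2.2.2.2⟩)))))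
  · exact Or.inr (Or.inr (Or.inr (Or.inr (Or.inr (Or.inr
      ⟨k.1, k.2.1, k.2.2.1, k.2.2.2.1, Or.inr k.2.2.2.2⟩)))))

lemma A_clique (h4 : NoC4 G) {a b c d e : V} (h : C5 G a b c d e) {x y : V}
    (hx : TA G a b c d e x) (hy : TA G a b c d e y) (hne : x ≠ y) : G.Adj x y :=
  (h4 x b y e hne (fun h' => h.bd (h' ▸ h.de.symm)) hx.1 hy.1.symm hy.2.1 hx.2.1.symm).resolve_right
    h.be

lemma U_clique (h4 : NoC4 G) {a b c d e : V} (h : C5 G a b c d e) {x y : V}
    (hx : TU G a b c d e x) (hy : TU G a b c d e y) (hne : x ≠ y) : G.Adj x y :=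
  (h4 x a y c hne (fun h' => h.ad (h' ▸ h.cd)) hx.1 hy.1.symm hy.2.2.1 hx.2.2.1.symm).resolve_right
    h.ac

lemma UA (h4 : NoC4 G) {a b c d e : V} (h : C5 G a b c d e) {x y : V}
    (hx : TU G a b c d e x) (hy : TA G a b c d e y) : G.Adj x y :=
  (h4 x b y e (fun h' => hy.2.2.1 (h' ▸ hx.2.2.1)) (fun h' => h.bd (h' ▸ h.de.symm)) hx.2.1
    hy.1.symm hy.2.1 hx.2.2.2.2.symm).resolve_right h.be

lemma TU_rot {a b c d e x : V} (hx : TU G a b c d e x) : TU G b c d e a x :=
  ⟨hx.2.1, hx.2.2.1, hx.2.2.2.1, hx.2.2.2.2, hx.1⟩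

lemma A01 (h5 : NoP5 G) {a b c d e : V} (h : C5 G a b c d e) {x y : V}
    (hx : TA G a b c d e x) (hy : TA G b c d e a y) : G.Adj x y := by
  by_contra hxy
  exact h5 x e d c y hx.2.1 h.de.symm h.cd.symm hy.1.symm hx.2.2.2.1 hx.2.2.1 hxy
    (fun h' => h.ce h'.symm) (fun h' => hy.2.2.2.1 h'.symm) (fun h' => hy.2.2.1 h'.symm)

lemma noTU (h4 : NoC4 G) (h5 : NoP5 G) {a b c d e : V} (h : C5 G a b c d e) (ha : Mx G a) (u : V) :
    ¬ TU G a b c d e u := by
  intro hu
  have hle : Le G a u := by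
    rintro z (rfl | hz)
    · exact Or.inr hu.1
    · by_cases hzu : z = u
      · exact Or.inl hzu
      · right
        rcases classify h4 h5 h z with k | k | k | k | k | k | k
        · exact absurd hz.symm k.1
        · exact U_clique h4 h hu k (fun h' => hzu h'.symm)
        · exact UA h4 h hu k
        · exact UA h4 h.rot (TU_rot hu) k
        · exact UA h4 h.rot.rot (TU_rot (TU_rot hu)) k
        · exact UA h4 h.rot.rot.rot (TU_rot (TU_rot (TU_rot hu))) k
        · exact UA h4 h.rot.rot.rot.rot (TU_rot (TU_rot (TU_rot (TU_rot hu)))) k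
  rcases ha u hle c (Or.inr hu.2.2.1) with h1 | h1
  · exact h.ad (h1 ▸ h.cd)
  · exact h.ac h1

lemma noTN (h4 : NoC4 G) (h5 : NoP5 G) (hG : G.Connected) {a b c d e : V} (h : C5 G a b c d e)
    (hU : ∀ u, ¬ TU G a b c d e u) (q0 : V) : ¬ TN G a b c d e q0 := by
  intro hq0
  obtain ⟨q, p, hq, hp, hqp⟩ := exists_edge hG (S := TN G a b c d e) (a := q0) (b := a) hq0
    (fun h' => h'.2.1 h.ab)
  obtain ⟨qa, qb, qc, qd, qe⟩ := hq
  rcases classify h4 h5 h p with k | k | k | k | k | k | k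
  · exact hp k
  · exact hU p k
  · exact h5 q p b c d hqp k.1 h.bc h.cd qb qc qd k.2.2.1 k.2.2.2.1 h.bd
  · exact h5 q p c d e hqp k.1 h.cd h.de qc qd qe k.2.2.1 k.2.2.2.1 h.ce
  · exact h5 q p d e a hqp k.1 h.de h.ea qd qe qa k.2.2.1 k.2.2.2.1 (fun h' => h.ad h'.symm)
  · exact h5 q p e a b hqp k.1 h.ea h.ab qe qa qb k.2.2.1 k.2.2.2.1 (fun h' => h.be h'.symm)
  · exact h5 q p a b c hqp k.1 h.ab h.bc qa qb qc k.2.2.1 k.2.2.2.1 h.ac

lemma chain_app {l1 l2 : List V} (h1 : l1.IsChain G.Adj) (h2 : l2.IsChain G.Adj)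
    (hadj : ∀ x ∈ l1, ∀ y ∈ l2.head?, G.Adj x y) : (l1 ++ l2).IsChain G.Adj := by
  rw [List.isChain_append]
  exact ⟨h1, h2, fun x hx y hy => hadj x (List.mem_of_mem_getLast? hx) y hy⟩

lemma chain_clique {l : List V} (hn : l.Nodup) (hc : ∀ x ∈ l, ∀ y ∈ l, x ≠ y → G.Adj x y) :
    l.IsChain G.Adj := by
  apply List.Pairwise.isChain
  exact hn.imp_of_mem fun hx hy hne => hc _ hx _ hy hne

lemma ham_of_C5 [Finite V] (h4 : NoC4 G) (h5 : NoP5 G) (hG : G.Connected) {a b c d e : V}
    (h : C5 G a b c d e) (ha : Mx G a) : ∃ l, IsP G l ∧ ∀ x, x ∈ l := by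
  classical
  have := Fintype.ofFinite V
  have hU := noTU h4 h5 h ha
  have hN := noTN h4 h5 hG h hU
  have hex : ∀ P : V → Prop, ∃ l : List V, l.Nodup ∧ ∀ x, x ∈ l ↔ P x := fun P =>
    ⟨(Finset.univ.filter P).toList, Finset.nodup_toList _, by simp⟩
  obtain ⟨l0, n0, m0⟩ := hex (TA G a b c d e)
  obtain ⟨l1, n1, m1⟩ := hex (TA G b c d e a)
  obtain ⟨l2, n2, m2⟩ := hex (TA G c d e a b)
  obtain ⟨l3, n3, m3⟩ := hex (TA G d e a b c)
  obtain ⟨l4, n4, m4⟩ := hex (TA G e a b c d)
  have c0 : l0.IsChain G.Adj := chain_clique n0 fun x hx y hy hne =>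
    A_clique h4 h ((m0 x).1 hx) ((m0 y).1 hy) hne
  have c1 : l1.IsChain G.Adj := chain_clique n1 fun x hx y hy hne =>
    A_clique h4 h.rot ((m1 x).1 hx) ((m1 y).1 hy) hne
  have c2 : l2.IsChain G.Adj := chain_clique n2 fun x hx y hy hne =>
    A_clique h4 h.rot.rot ((m2 x).1 hx) ((m2 y).1 hy) hne
  have c3 : l3.IsChain G.Adj := chain_clique n3 fun x hx y hy hne =>
    A_clique h4 h.rot.rot.rot ((m3 x).1 hx) ((m3 y).1 hy) hne
  have c4 : l4.IsChain G.Adj := chain_clique n4 fun x hx y hy hne =>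
    A_clique h4 h.rot.rot.rot.rot ((m4 x).1 hx) ((m4 y).1 hy) hne
  have e1 : l1 ≠ [] := by
    have : b ∈ l1 := (m1 b).2 ⟨h.bc, h.ab.symm, h.bd, h.be, Or.inl rfl⟩
    exact List.ne_nil_of_mem this
  have e2 : l2 ≠ [] := by
    have : c ∈ l2 := (m2 c).2 ⟨h.cd, h.bc.symm, h.ce, fun h' => h.ac h'.symm, Or.inl rfl⟩
    exact List.ne_nil_of_mem this
  have e3 : l3 ≠ [] := by
    have : d ∈ l3 := (m3 d).2 ⟨h.de, h.cd.symm, fun h' => h.ad h'.symm, fun h' => h.bd h'.symm,
      Or.inl rfl⟩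
    exact List.ne_nil_of_mem this
  have C3 : (l3 ++ l4).IsChain G.Adj := chain_app c3 c4 fun x hx y hy =>
    A01 h5 h.rot.rot.rot ((m3 x).1 hx) ((m4 y).1 (List.mem_of_mem_head? hy))
  have C2 : (l2 ++ (l3 ++ l4)).IsChain G.Adj := chain_app c2 C3 fun x hx y hy => by
    rw [List.head?_append_of_ne_nil _ e3] at hy
    exact A01 h5 h.rot.rot ((m2 x).1 hx) ((m3 y).1 (List.mem_of_mem_head? hy))
  have C1 : (l1 ++ (l2 ++ (l3 ++ l4))).IsChain G.Adj := chain_app c1 C2 fun x hx y hy => by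
    rw [List.head?_append_of_ne_nil _ e2] at hy
    exact A01 h5 h.rot ((m1 x).1 hx) ((m2 y).1 (List.mem_of_mem_head? hy))
  have C0 : (l0 ++ (l1 ++ (l2 ++ (l3 ++ l4)))).IsChain G.Adj := chain_app c0 C1 fun x hx y hy => by
    rw [List.head?_append_of_ne_nil _ e1] at hy
    exact A01 h5 h ((m0 x).1 hx) ((m1 y).1 (List.mem_of_mem_head? hy))
  refine ⟨l0 ++ (l1 ++ (l2 ++ (l3 ++ l4))), ⟨?_, C0, ?_⟩, ?_⟩
  · have : b ∈ l0 ++ (l1 ++ (l2 ++ (l3 ++ l4))) := by
      simp [(m1 b).2 ⟨h.bc, h.ab.symm, h.bd, h.be, Or.inl rfl⟩]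
    exact List.ne_nil_of_mem this
  · have t01 : ∀ x, TA G a b c d e x → ¬ TA G b c d e a x := fun x h1 h2 => h1.2.2.1 h2.1
    have t02 : ∀ x, TA G a b c d e x → ¬ TA G c d e a b x := fun x h1 h2 => h1.2.2.2.1 h2.1
    have t03 : ∀ x, TA G a b c d e x → ¬ TA G d e a b c x := fun x h1 h2 => h1.2.2.1 h2.2.1
    have t04 : ∀ x, TA G a b c d e x → ¬ TA G e a b c d x := fun x h1 h2 => h1.2.2.2.1 h2.2.1
    have t12 : ∀ x, TA G b c d e a x → ¬ TA G c d e a b x := fun x h1 h2 => h1.2.2.1 h2.1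
    have t13 : ∀ x, TA G b c d e a x → ¬ TA G d e a b c x := fun x h1 h2 => h1.2.2.2.1 h2.1
    have t14 : ∀ x, TA G b c d e a x → ¬ TA G e a b c d x := fun x h1 h2 => h1.2.2.1 h2.2.1
    have t23 : ∀ x, TA G c d e a b x → ¬ TA G d e a b c x := fun x h1 h2 => h1.2.2.1 h2.1
    have t24 : ∀ x, TA G c d e a b x → ¬ TA G e a b c d x := fun x h1 h2 => h1.2.2.2.1 h2.1
    have t34 : ∀ x, TA G d e a b c x → ¬ TA G e a b c d x := fun x h1 h2 => h1.2.2.1 h2.1
    simp only [List.nodup_append', List.disjoint_left, n0, n1, n2, n3, n4, List.mem_append, m0, m1,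
      m2, m3, m4, true_and, not_or]
    exact ⟨⟨⟨t34, fun x hx => ⟨t23 x hx, t24 x hx⟩⟩,
      fun x hx => ⟨t12 x hx, t13 x hx, t14 x hx⟩⟩,
      fun x hx => ⟨t01 x hx, t02 x hx, t03 x hx, t04 x hx⟩⟩
  · intro x
    simp only [List.mem_append, m0, m1, m2, m3, m4]
    rcases classify h4 h5 h x with k | k | k | k | k | k | k
    · exact absurd k (hN x)
    · exact absurd k (hU x)
    all_goals tauto

lemma ps_or_ham [Finite V] (h4 : NoC4 G) (h5 : NoP5 G) (hG : G.Connected) :
    PS G ∨ ∃ l, IsP G l ∧ ∀ x, x ∈ l := by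
  by_contra hcon
  push Not at hcon
  obtain ⟨hps, hham⟩ := hcon
  apply hps
  intro v x y y' hv hvx hvy hyv hvy' hyv' hyy hxy'
  by_contra hxy
  have hxv : ¬ Le G v x := by
    intro hle
    rcases hv x hle y' (Or.inr hxy') with h1 | h1
    · exact hyv' h1
    · exact hvy' h1
  unfold Le at hxv
  push Not at hxv
  obtain ⟨z, hz, hzx, hxz⟩ := hxv
  have hvz : G.Adj v z := by
    rcases hz with rfl | hz
    · exact absurd hvx.symm hxz
    · exact hz
  have hzy' : ¬ G.Adj z y' := by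
    intro hzy
    rcases h4 v x y' z (fun h' => hyv' h'.symm) (fun h' => hzx h'.symm) hvx hxy' hzy.symm hvz.symm
      with h1 | h1
    · exact hvy' h1
    · exact hxz h1
  have hzy : G.Adj z y := by
    by_contra hzy
    exact h5 y y' x v z hyy hxy'.symm hvx.symm hvz (fun h' => hxy h'.symm) (fun h' => hvy h'.symm)
      (fun h' => hzy h'.symm) (fun h' => hvy' h'.symm) (fun h' => hzy' h'.symm) hxz
  have hc : C5 G v x y' y z := ⟨hvx, hxy', hyy.symm, hzy.symm, hvz.symm, hvy', hvy, hxy, hxz,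
    fun h' => hzy' h'.symm⟩
  obtain ⟨l, hl, hl'⟩ := ham_of_C5 h4 h5 hG hc hv
  obtain ⟨w, hw⟩ := hham l hl
  exact hw (hl' w)

end

/-- In every finite connected graph without induced `P₅` and induced `C₄` some vertex lies on all
longest paths. -/
theorem result : ∀ (V : Type) [Finite V] (G : SimpleGraph V), G.Connected →
    ¬ Nonempty (SimpleGraph.pathGraph 5 ↪g G) → ¬ Nonempty (SimpleGraph.cycleGraph 4 ↪g G) →
    ∃ v : V, ∀ (a b : V) (p : G.Walk a b), p.IsPath →
      (∀ (c d : V) (q : G.Walk c d), q.IsPath → q.length ≤ p.length) → v ∈ p.support := by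
  intro V _ G hG hP hC
  have h4 := noC4_of hC
  have h5 := noP5_of hP
  have hmain : ∃ v, ∀ l, Longest G l → v ∈ l := by
    rcases ps_or_ham h4 h5 hG with hS | ⟨l, hl, hl'⟩
    · exact gallai_of_PS h4 hS hG
    · obtain ⟨v⟩ := hG.nonempty
      refine ⟨v, fun l' hL => ?_⟩
      have hsub : l' ⊆ l := fun x _ => hl' x
      have hperm := (List.subperm_of_subset hL.1.2.2 hsub).perm_of_length_le (hL.2 l hl)
      exact hperm.mem_iff.2 (hl' v)
  obtain ⟨v, hv⟩ := hmain
  refine ⟨v, fun a b p hp hmax => hv p.support ⟨⟨p.support_ne_nil, p.isChain_adj_support,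
    p.isPath_def.1 hp⟩, ?_⟩⟩
  rintro l ⟨hne, hc, hn⟩
  have h1 := hmax _ _ (SimpleGraph.Walk.ofSupport l hne hc) (by
    rw [SimpleGraph.Walk.isPath_def, SimpleGraph.Walk.support_ofSupport]
    exact hn)
  rw [SimpleGraph.Walk.length_ofSupport] at h1
  rw [SimpleGraph.Walk.length_support]
  have : 0 < l.length := List.length_pos_of_ne_nil hne
  omega

end Pool.Agent.Results.MP_288739_co.GallaiVertex
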